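import Pool.Agent.H65.HX.GBas

/-!
# Project HX: parts NDG, RZ0 and CNT

Adapted from `Pool/Agent/H43/HW/Deg.lean`:
`t_NDG (h : S_TZ3) : S_NDG`, `t_RZ0 : S_RZ0`, `t_CNT (h : S_TZ1) : S_CNT`.
-/

set_option autoImplicit false
open Classical Finset

namespace Pool.Agent.H37.HX

open Pool.Agent.H21.HV (nb Prp TotLab)
open Pool.Agent.H39.HW (sm Av ln blk lab Reg)
open Pool.Agent.H65.HW (cell)
open Pool.Agent.H65.HX

theorem D_pos {V : Type} [Fintype V] {G : SimpleGraph V} {D p : ℕ} {s : Dat} {cl : V → ℕ}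
    (h : Ctx G D p s cl) : (0 : ℝ) < D := by
  have h1 := h.big
  have h2 := h.sch.dpos
  have h3 : (0 : ℝ) < 100 * (s.m + 2) * (s.B + 2) * (s.H + 2) := by positivity
  have h4 : 0 < s.δ * D := lt_of_lt_of_le h3 h1
  by_contra hc
  have : s.δ * D ≤ 0 := mul_nonpos_of_nonneg_of_nonpos h2.le (not_lt.1 hc)
  linarith

/-- the edges of `T` at `z` go to the special cells -/
theorem nb_T {V : Type} [Fintype V] {G : SimpleGraph V} {D p : ℕ} {s : Dat} {cl x : V → ℕ}
    {f : V → V → ℕ} {T : SimpleGraph V} {c : V → V → ℕ}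
    (h : Ctx G D p s cl) (hT : Tgr G D p s cl x f T c) {z : V} (hz : cl z ∈ s.R) :
    nb T univ z = ∑ y ∈ range s.m, nb T (cell cl (s.B + y)) z := by
  rw [nb_split G T h z]
  have : ∑ a ∈ s.R, nb T (cell cl a) z = 0 := by
    apply Finset.sum_eq_zero
    intro a ha
    unfold nb
    rw [Finset.card_eq_zero, Finset.filter_eq_empty_iff]
    intro u hu hadj
    rw [mem_cell] at hu
    have h1 := row_lt h.sch ha
    have h2 := row_lt h.sch hz
    rcases hT.sup z u hadj with ⟨_, h3⟩ | ⟨h3, _⟩ <;> omega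
  rw [this, zero_add]

theorem sum_Nz {V : Type} [Fintype V] {G : SimpleGraph V} {D p : ℕ} {s : Dat} {cl x : V → ℕ}
    {f : V → V → ℕ} {T : SimpleGraph V} {c : V → V → ℕ}
    (h : Ctx G D p s cl) (hT : Tgr G D p s cl x f T c) {z : V} (hz : cl z ∈ s.R) :
    ∑ y ∈ range s.m, Nz G T s cl z y + nb T univ z =
      ∑ y ∈ range s.m, nb G (cell cl (s.B + y)) z := by
  rw [nb_T h hT hz, ← Finset.sum_add_distrib]
  apply Finset.sum_congr rfl
  intro y _
  unfold Nz
  have := nb_mono_graph hT.le (cell cl (s.B + y)) z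
  omega

theorem t_NDG (hTZ : S_TZ3) : S_NDG := by
  intro V _ G D p s cl x f T c h hw hl hT z hz
  have hD := D_pos h
  refine ⟨?_, ?_⟩
  · intro y hy
    have h1 := abs_le.1 (h.spe z y hy)
    have h2 := hT.few z hz y hy
    have h3 := nb_mono_graph hT.le (cell cl (s.B + y)) z
    have h4 : (Nz G T s cl z y : ℝ) =
        (nb G (cell cl (s.B + y)) z : ℝ) - nb T (cell cl (s.B + y)) z := by
      unfold Nz
      rw [Nat.cast_sub h3]
    have h5 : (0 : ℝ) ≤ (nb T (cell cl (s.B + y)) z : ℝ) := Nat.cast_nonneg _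
    rw [h4]
    constructor
    · linarith [h1.1]
    · linarith [h1.2]
  · have h1 := sum_Nz h hT hz
    have h2 := hT.deg z hz
    have h3 := hTZ V G D p s cl x f h hw hl z hz
    have h4 : (∑ y ∈ range s.m, (Nz G T s cl z y : ℝ)) + (nb T univ z : ℝ) =
        ∑ y ∈ range s.m, (nb G (cell cl (s.B + y)) z : ℝ) := by
      exact_mod_cast h1
    have h5 : (nb T univ z : ℝ) + 1 = ((Tz G D p s cl x f z).card : ℝ) := by exact_mod_cast h2
    have h6 : ∑ y ∈ range s.m, (s.ω * D - s.δ * D) ≤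
        ∑ y ∈ range s.m, (nb G (cell cl (s.B + y)) z : ℝ) := by
      apply Finset.sum_le_sum
      intro y hy
      have := (abs_le.1 (h.spe z y (Finset.mem_range.1 hy))).1
      linarith
    rw [Finset.sum_const, Finset.card_range, nsmul_eq_mul] at h6
    nlinarith

/-! ### `rz` without moved edges -/

theorem rz0_eq {V : Type} [Fintype V] {G : SimpleGraph V} {D p : ℕ} {s : Dat} {cl : V → ℕ}
    (h : Ctx G D p s cl) {z : V} {b : ℕ} (hb : b ∈ s.R) (hne : cl z ≠ b) :
    rz G s cl ⊥ (fun _ _ => 0) z (sm s.B (cl z) b) = nb G (cell cl b) z := by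
  unfold rz nb
  congr 1
  ext v
  simp only [mem_filter, mem_univ, true_and, mem_cell, be, SimpleGraph.bot_adj, if_false]
  constructor
  · rintro ⟨h1, h2, _, h4⟩
    exact ⟨sm_inj (row_lt h.sch h2) (row_lt h.sch hb) h4, h1⟩
  · rintro ⟨h1, h2⟩
    rw [h1]
    exact ⟨h2, hb, hne.symm, rfl⟩

theorem rz0_zero {V : Type} [Fintype V] {G : SimpleGraph V} {s : Dat} {cl : V → ℕ}
    {z : V} {β : ℕ} (hβ : β ∉ s.mm (cl z)) : rz G s cl ⊥ (fun _ _ => 0) z β = 0 := by
  unfold rz
  rw [Finset.card_eq_zero, Finset.filter_eq_empty_iff]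
  intro v _ hc
  obtain ⟨_, h2, h3, h4⟩ := hc
  apply hβ
  simp only [be, SimpleGraph.bot_adj, if_false] at h4
  rw [← h4]
  exact mem_mm h2 (Ne.symm h3)

theorem t_RZ0 : S_RZ0 := by
  intro V _ G D p s cl h z hz β hβ
  have hD := D_pos h
  unfold Dat.dem
  by_cases hm : β ∈ s.mm (cl z)
  · obtain ⟨b, hb, hne, he, hc⟩ := mm_sub_cls h.sch hz hm
    rw [if_pos hm]
    subst he
    rw [rz0_eq h hb hne]
    refine ⟨nb_row_lt h z hb hβ, ?_⟩
    have h2 := h.row z b hb
    have h3 : (ln s.st (sm s.B (cl z) b) : ℝ) - (nb G (cell cl b) z : ℝ) -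
        ((ln s.st (sm s.B (cl z) b) : ℝ) / D - s.μ) * D =
        -((nb G (cell cl b) z : ℝ) - s.μ * D) := by
      field_simp
      ring
    rw [h3, abs_neg]
    exact h2
  · rw [if_neg hm, rz0_zero hm]
    constructor
    · have := nb_row_lt h z hz hβ
      omega
    · have h3 : (ln s.st β : ℝ) - ((0 : ℕ) : ℝ) - ((ln s.st β : ℝ) / D - 0) * D = 0 := by
        field_simp
        simp
      rw [h3, abs_zero]
      exact mul_nonneg h.sch.dpos.le hD.le

/-! ### the count -/

/-- the block of an edge between `z` and another row is a class of `z` -/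
theorem be_mem_cls {V : Type} [Fintype V] {G T : SimpleGraph V} {D p : ℕ} {s : Dat} {cl : V → ℕ}
    {X : SimpleGraph V} {bX : V → V → ℕ}
    (h : Ctx G D p s cl) (hX : Xgr G T D p s cl X bX) {z v : V} (hz : cl z ∈ s.R)
    (hv : cl v ∈ s.R) (hne : cl v ≠ cl z) : be s cl X bX z v ∈ s.cls p (cl z) := by
  unfold be
  split_ifs with hadj
  · rcases hX.sup z v hadj with ⟨h1, τ, h2⟩ | ⟨⟨τ, h1⟩, h2⟩
    · exact (h.sch.xc1 τ _ (hX.blo z v τ hadj h1 h2) _ h1).1
    · rw [hX.sym]
      exact h.sch.xc2 τ _ (hX.blo v z τ hadj.symm h2 h1) _ h1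
  · exact sm_mem_cls h.sch hz hv hne.symm

/-- the rows other than the row of `z`, block by block -/
theorem sum_rz {V : Type} [Fintype V] {G T : SimpleGraph V} {D p : ℕ} {s : Dat} {cl : V → ℕ}
    {X : SimpleGraph V} {bX : V → V → ℕ}
    (h : Ctx G D p s cl) (hX : Xgr G T D p s cl X bX) {z : V} (hz : cl z ∈ s.R) :
    ∑ β ∈ s.cls p (cl z), rz G s cl X bX z β = ∑ b ∈ s.R.erase (cl z), nb G (cell cl b) z := by
  have h1 : (univ.filter (fun v => G.Adj z v ∧ cl v ∈ s.R ∧ cl v ≠ cl z)).card =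
      ∑ β ∈ s.cls p (cl z), rz G s cl X bX z β := by
    rw [Finset.card_eq_sum_card_fiberwise (f := be s cl X bX z) (t := s.cls p (cl z))]
    · apply Finset.sum_congr rfl
      intro β _
      unfold rz
      rw [Finset.filter_filter]
      congr 1
      ext v
      simp only [mem_filter, mem_univ, true_and]
      tauto
    · intro v hv
      simp only [Finset.coe_filter, mem_univ, true_and, Set.mem_setOf_eq] at hv
      exact be_mem_cls h hX hz hv.2.1 hv.2.2
  have h2 : (univ.filter (fun v => G.Adj z v ∧ cl v ∈ s.R ∧ cl v ≠ cl z)).card =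
      ∑ b ∈ s.R.erase (cl z), nb G (cell cl b) z := by
    rw [Finset.card_eq_sum_card_fiberwise (f := cl) (t := s.R.erase (cl z))]
    · apply Finset.sum_congr rfl
      intro b hb
      rw [Finset.mem_erase] at hb
      unfold nb
      rw [Finset.filter_filter]
      congr 1
      ext v
      simp only [mem_filter, mem_univ, true_and, mem_cell]
      constructor
      · rintro ⟨⟨h1, _, _⟩, h4⟩
        exact ⟨h4, h1⟩
      · rintro ⟨h1, h2⟩
        rw [h1]
        exact ⟨⟨h2, hb.2, hb.1⟩, rfl⟩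
    · intro v hv
      simp only [Finset.coe_filter, mem_univ, true_and, Set.mem_setOf_eq] at hv
      simp only [Finset.coe_erase, Set.mem_diff, Finset.mem_coe, Set.mem_singleton_iff]
      exact ⟨hv.2.1, hv.2.2⟩
  rw [← h1, h2]

theorem t_CNT (hTZ : S_TZ1) : S_CNT := by
  intro V _ G D p s cl x f T c X bX h hw hl hT hX z hz
  have h1 := sum_Nz h hT hz
  have h2 := hT.deg z hz
  have h3 := hTZ V G D p s cl x f h hw hl z hz
  have h4 := nb_split G G h z
  have h5 : nb G univ z = D := h.reg z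
  have h6 := sum_rz h hX hz
  have h7 : ∑ β ∈ s.cls p (cl z), pz G s cl X bX z β +
      ∑ β ∈ s.cls p (cl z), rz G s cl X bX z β =
      ∑ β ∈ s.cls p (cl z), ln s.st β := by
    rw [← Finset.sum_add_distrib]
    apply Finset.sum_congr rfl
    intro β hβ
    unfold pz
    have := (hX.tol z hz β hβ).1
    omega
  have h8 : nb G (cell cl (cl z)) z + ∑ b ∈ s.R.erase (cl z), nb G (cell cl b) z =
      ∑ b ∈ s.R, nb G (cell cl b) z :=
    Finset.add_sum_erase _ (fun b => nb G (cell cl b) z) hz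
  omega

end Pool.Agent.H37.HX
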